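import Mathlib.Algebra.Group.Action.Defs
import Mathlib.Algebra.Order.Group.Nat
import Mathlib.Order.Interval.Finset.Nat
import Mathlib.Algebra.Group.Submonoid.BigOperators
import Mathlib.Algebra.BigOperators.Group.Finset.Sigma
import Mathlib.Algebra.Notation.Lemmas
import Mathlib.CategoryTheory.Category.Init

/-!
Basic facts on submonoids of `ℕ` with a Frobenius number: factorization into minimal generators,
finiteness, and the crossing inequality.
-/

set_option autoImplicit false

namespace Pool.Agent.MP_96f5a9_co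

open Finset

/-- Minimal generators of a submonoid of `ℕ`. -/
def gens (S : AddSubmonoid ℕ) : Set ℕ :=
  {x | x ∈ S ∧ x ≠ 0 ∧ ∀ a ∈ S, ∀ b ∈ S, a + b = x → a = 0 ∨ b = 0}

lemma exists_fact (S : AddSubmonoid ℕ) (z : ℕ) (hz : z ∈ S) :
    ∃ l : Multiset ℕ, (∀ g ∈ l, g ∈ gens S) ∧ l.sum = z := by
  induction z using Nat.strong_induction_on with
  | _ z ih =>
    by_cases h0 : z = 0
    · exact ⟨0, by simp, by simp [h0]⟩
    by_cases hg : z ∈ gens S
    · exact ⟨{z}, by simpa using hg, by simp⟩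
    · have : ∃ a ∈ S, ∃ b ∈ S, a + b = z ∧ a ≠ 0 ∧ b ≠ 0 := by
        by_contra hc
        push Not at hc
        apply hg
        refine ⟨hz, h0, fun a ha b hb hab => ?_⟩
        by_cases ha0 : a = 0
        · exact Or.inl ha0
        · exact Or.inr (hc a ha b hb hab ha0)
      obtain ⟨a, ha, b, hb, hab, ha0, hb0⟩ := this
      obtain ⟨la, hla, sa⟩ := ih a (by omega) ha
      obtain ⟨lb, hlb, sb⟩ := ih b (by omega) hb
      refine ⟨la + lb, fun g hg => ?_, by simp [sa, sb, hab]⟩
      rcases Multiset.mem_add.1 hg with h | h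
      · exact hla g h
      · exact hlb g h

lemma gens_finite (S : AddSubmonoid ℕ) (F : ℕ) (hF : ∀ x, F < x → x ∈ S) : (gens S).Finite := by
  refine (Set.finite_Iic (2 * F + 1)).subset fun x hx => ?_
  by_contra hc
  simp only [Set.mem_Iic, not_le] at hc
  rcases hx.2.2 (F + 1) (hF _ (by omega)) (x - (F + 1)) (hF _ (by omega)) (by omega) with h | h
  all_goals omega

/-- If `g` occurs at least `t` times in a factorization of `z`, then `z - t g ∈ S`. -/
lemma sub_mem_of_count (S : AddSubmonoid ℕ) (l : Multiset ℕ) (hl : ∀ g ∈ l, g ∈ S) (g t : ℕ)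
    (ht : t ≤ l.count g) : ∃ s ∈ S, s + t * g = l.sum := by
  obtain ⟨l', hl'⟩ := Multiset.le_iff_exists_add.1 (Multiset.le_count_iff_replicate_le.1 ht)
  refine ⟨l'.sum, S.multiset_sum_mem _ fun x hx => hl x (by rw [hl']; simp [hx]), ?_⟩
  rw [hl']
  simp [add_comm]

open Classical in
/-- The crossing inequality. -/
lemma crossing (S : AddSubmonoid ℕ) (F g : ℕ) (v : ℕ → ℕ)
    (hv : ∀ j ∈ Icc 1 g, ∀ t ≤ v j, ∃ s ∈ S, s + t * g = F + j) :
    ∑ j ∈ Icc 1 g, v j ≤ ((range (F + 1)).filter (· ∈ S)).card := by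
  have : ∑ j ∈ Icc 1 g, v j = ((Icc 1 g).sigma fun j => Icc 1 (v j)).card := by
    simp [card_sigma]
  rw [this]
  refine card_le_card_of_injOn (fun p => F + p.1 - p.2 * g) ?_ ?_
  · rintro ⟨j, t⟩ hp
    simp only [coe_sigma, Set.mem_sigma_iff, mem_coe, mem_Icc] at hp
    obtain ⟨s, hs, hst⟩ := hv j (mem_Icc.2 hp.1) t hp.2.2
    have h1 : g ≤ t * g := Nat.le_mul_of_pos_left _ hp.2.1
    simp only [coe_filter, mem_range, Set.mem_ofPred_eq]
    have : F + j - t * g = s := by omega
    rw [this]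
    exact ⟨by omega, hs⟩
  · rintro ⟨j, t⟩ hp ⟨j', t'⟩ hp' h
    simp only [coe_sigma, Set.mem_sigma_iff, mem_coe, mem_Icc] at hp hp'
    obtain ⟨s, -, hst⟩ := hv j (mem_Icc.2 hp.1) t hp.2.2
    obtain ⟨s', -, hst'⟩ := hv j' (mem_Icc.2 hp'.1) t' hp'.2.2
    simp only at h
    have h1 : j + t' * g = j' + t * g := by omega
    have h2 : t = t' := by
      rcases lt_trichotomy t t' with h3 | h3 | h3
      · have := Nat.mul_le_mul_right g (Nat.succ_le_of_lt h3)
        rw [Nat.succ_mul] at this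
        omega
      · exact h3
      · have := Nat.mul_le_mul_right g (Nat.succ_le_of_lt h3)
        rw [Nat.succ_mul] at this
        omega
    subst h2
    have : j = j' := by omega
    subst this
    rfl

end Pool.Agent.MP_96f5a9_co
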