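import Mathlib.Analysis.SpecialFunctions.Log.Basic
import Mathlib.Tactic.Algebra.Basic
import Pool.Agent.MP_96f5a9_co.Basic

set_option autoImplicit false

namespace Pool.Agent.MP_96f5a9_co

open Finset

lemma sum_periodic (m g : ℕ) (hm : 0 < m) (hg : m ≤ g) (c : ℕ → ℕ) :
    ∑ j ∈ Icc 1 m, ((g - j) / m + 1) * c j ≤ ∑ j ∈ Icc 1 g, c ((j - 1) % m + 1) := by
  have h1 : ∑ j ∈ Icc 1 m, ((g - j) / m + 1) * c j =
      ∑ p ∈ (Icc 1 m).sigma (fun j => range ((g - j) / m + 1)), c p.1 := by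
    rw [sum_sigma]
    simp
  rw [h1]
  have hinj : Set.InjOn (fun p : (Σ _ : ℕ, ℕ) => p.1 + p.2 * m)
      ((Icc 1 m).sigma (fun j => range ((g - j) / m + 1)) : Finset (Σ _ : ℕ, ℕ)) := by
    rintro ⟨j, k⟩ hp ⟨j', k'⟩ hp' h
    simp only [coe_sigma, Set.mem_sigma_iff, mem_coe, mem_Icc, mem_range] at hp hp'
    simp only at h
    have h2 : k = k' := by
      rcases lt_trichotomy k k' with h3 | h3 | h3
      · have := Nat.mul_le_mul_right m (Nat.succ_le_of_lt h3)
        rw [Nat.succ_mul] at this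
        omega
      · exact h3
      · have := Nat.mul_le_mul_right m (Nat.succ_le_of_lt h3)
        rw [Nat.succ_mul] at this
        omega
    subst h2
    have : j = j' := by omega
    subst this
    rfl
  have h2 : ∑ p ∈ (Icc 1 m).sigma (fun j => range ((g - j) / m + 1)), c p.1 =
      ∑ p ∈ (Icc 1 m).sigma (fun j => range ((g - j) / m + 1)),
        c (((p.1 + p.2 * m) - 1) % m + 1) := by
    refine sum_congr rfl ?_
    rintro ⟨j, k⟩ hp
    simp only [mem_sigma, mem_Icc, mem_range] at hp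
    have : j + k * m - 1 = (j - 1) + k * m := by omega
    simp only [this, Nat.add_mul_mod_self_right]
    rw [Nat.mod_eq_of_lt (by omega)]
    congr 1
    omega
  rw [h2, ← sum_image (f := fun j => c ((j - 1) % m + 1)) hinj]
  refine sum_le_sum_of_subset ?_
  intro x hx
  obtain ⟨⟨j, k⟩, hp, rfl⟩ := mem_image.1 hx
  simp only [mem_sigma, mem_Icc, mem_range] at hp
  have h3 : k * m ≤ g - j :=
    (Nat.mul_le_mul_right m (Nat.lt_succ_iff.1 hp.2)).trans (Nat.div_mul_le_self _ _)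
  simp only [mem_Icc]
  omega

lemma le_psi (m g j : ℕ) (hm : 0 < m) (hj : 1 ≤ j) (hjg : j ≤ g) :
    g ≤ ((g - j) / m + 1) * (m + j - 1) := by
  have h1 := Nat.lt_div_mul_add hm (a := g - j)
  have h2 : (g - j) / m * m ≤ (g - j) / m * (m + j - 1) := Nat.mul_le_mul_left _ (by omega)
  rw [Nat.succ_mul]
  omega

lemma log_two_le (m : ℕ) (hm : 0 < m) :
    Real.log 2 ≤ ∑ j ∈ Icc 1 m, (1 : ℝ) / (m + j - 1) := by
  have key : ∀ k : ℕ, Real.log (m + k) - Real.log m ≤ ∑ j ∈ Icc 1 k, (1 : ℝ) / (m + j - 1) := by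
    intro k
    induction k with
    | zero => simp
    | succ k ih =>
      rw [sum_Icc_succ_top (by omega)]
      have hpos : (0 : ℝ) < m + k := by positivity
      have h1 : Real.log ((m + k + 1) / (m + k)) ≤ (m + k + 1) / (m + k) - 1 :=
        Real.log_le_sub_one_of_pos (by positivity)
      rw [Real.log_div (by positivity) hpos.ne'] at h1
      have h2 : ((m : ℝ) + k + 1) / (m + k) - 1 = 1 / (m + k) := by field_simp; ring
      push_cast
      have h3 : (m : ℝ) + (k + 1) - 1 = m + k := by ring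
      rw [h3, ← add_assoc]
      linarith
  have h := key m
  have hm' : (0 : ℝ) < m := by exact_mod_cast hm
  rw [← two_mul, Real.log_mul (by norm_num) hm'.ne'] at h
  linarith

open Classical in
lemma main_nat (S : AddSubmonoid ℕ) (F m : ℕ) (hF : ∀ x, F < x → x ∈ S) (hm0 : 0 < m)
    (hmS : m ∈ S) (hm : ∀ g ∈ gens S, m ≤ g) :
    ∃ cr : ℕ → ℕ, (∀ j ∈ Icc 1 m, F + j ≤ cr j * (m + j - 1)) ∧
      ∑ j ∈ Icc 1 m, cr j ≤ (gens S).ncard * ((range (F + 1)).filter (· ∈ S)).card := by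
  have hfin := gens_finite S F hF
  choose l hl hsum using fun j : ℕ => exists_fact S (F + (j + 1)) (hF _ (by omega))
  set G := hfin.toFinset with hG
  set n := ((range (F + 1)).filter (· ∈ S)).card
  have h1 : ∀ g ∈ G, ∑ j ∈ Icc 1 m, ((g - j) / m + 1) * (l (j - 1)).count g ≤ n := by
    intro g hg
    have hg' : g ∈ gens S := hfin.mem_toFinset.1 hg
    refine (sum_periodic m g hm0 (hm g hg') fun j => (l (j - 1)).count g).trans ?_
    refine crossing S F g _ fun j hj t ht => ?_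
    simp only [Nat.add_sub_cancel] at ht
    obtain ⟨s, hs, hst⟩ := sub_mem_of_count S _ (fun x hx => (hl _ x hx).1) g t ht
    rw [hsum] at hst
    refine ⟨s + (j - 1) / m * m, S.add_mem hs (by simpa using S.nsmul_mem hmS ((j - 1) / m)), ?_⟩
    have := Nat.div_add_mod' (j - 1) m
    have hj1 := (mem_Icc.1 hj).1
    omega
  refine ⟨fun j => ∑ g ∈ G, ((g - j) / m + 1) * (l (j - 1)).count g, fun j hj => ?_, ?_⟩
  · have hj' := mem_Icc.1 hj
    have h3 : F + j = ∑ g ∈ G, (l (j - 1)).count g * g := by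
      have h4 := hsum (j - 1)
      rw [show j - 1 + 1 = j by omega] at h4
      rw [← h4, Finset.sum_multiset_count_of_subset (l (j - 1)) G]
      · simp
      · intro x hx
        exact hfin.mem_toFinset.2 (hl _ x (Multiset.mem_toFinset.1 hx))
    rw [h3, sum_mul]
    refine sum_le_sum fun g hg => ?_
    have := le_psi m g j hm0 hj'.1 (hj'.2.trans (hm g (hfin.mem_toFinset.1 hg)))
    calc _ ≤ (l (j - 1)).count g * (((g - j) / m + 1) * (m + j - 1)) := Nat.mul_le_mul_left _ this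
      _ = _ := by ring
  · rw [sum_comm, Set.ncard_eq_toFinset_card _ hfin]
    simpa using sum_le_card_nsmul G _ n h1

open Classical in
lemma main_ceil (S : AddSubmonoid ℕ) (F m : ℕ) (hF : ∀ x, F < x → x ∈ S) (hm0 : 0 < m)
    (hmS : m ∈ S) (hm : ∀ g ∈ gens S, m ≤ g) :
    ∑ j ∈ Icc 1 m, ⌈((F : ℝ) + j) / (m + j - 1)⌉₊ ≤
      (gens S).ncard * ((range (F + 1)).filter (· ∈ S)).card := by
  obtain ⟨cr, h1, h2⟩ := main_nat S F m hF hm0 hmS hm
  refine le_trans (sum_le_sum fun j hj => ?_) h2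
  have hj' := mem_Icc.1 hj
  have hpos : (0 : ℝ) < m + j - 1 := by
    have : (1 : ℝ) ≤ j := by exact_mod_cast hj'.1
    have : (0 : ℝ) < m := by exact_mod_cast hm0
    linarith
  rw [Nat.ceil_le, div_le_iff₀ hpos]
  have h6 : ((m + j - 1 : ℕ) : ℝ) = m + j - 1 := by
    rw [Nat.cast_sub (by omega)]
    simp
  rw [← h6]
  exact_mod_cast h1 j hj

/-- The ceiling sum is at least `m + (F + 1 - m) * log 2`. -/
lemma log_two_le_ceil (F m : ℕ) (hm0 : 0 < m) (hmF : m ≤ F + 1) :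
    (m : ℝ) + ((F : ℝ) + 1 - m) * Real.log 2 ≤
      ((∑ j ∈ Icc 1 m, ⌈((F : ℝ) + j) / (m + j - 1)⌉₊ : ℕ) : ℝ) := by
  have h1 : ∑ j ∈ Icc 1 m, ((F : ℝ) + j) / (m + j - 1) =
      m + ((F : ℝ) + 1 - m) * ∑ j ∈ Icc 1 m, (1 : ℝ) / (m + j - 1) := by
    rw [mul_sum]
    have : (m : ℝ) = ∑ _j ∈ Icc 1 m, (1 : ℝ) := by simp
    nth_rewrite 2 [this]
    rw [← sum_add_distrib]
    refine sum_congr rfl fun j hj => ?_
    have : (1 : ℝ) ≤ j := by exact_mod_cast (mem_Icc.1 hj).1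
    have : (0 : ℝ) < m := by exact_mod_cast hm0
    have : (m : ℝ) + j - 1 ≠ 0 := by linarith
    field_simp
    ring
  have h2 : (0 : ℝ) ≤ (F : ℝ) + 1 - m := by
    have : (m : ℝ) ≤ F + 1 := by exact_mod_cast hmF
    linarith
  have h3 := mul_le_mul_of_nonneg_left (log_two_le m hm0) h2
  have h4 : ∑ j ∈ Icc 1 m, ((F : ℝ) + j) / (m + j - 1) ≤
      ((∑ j ∈ Icc 1 m, ⌈((F : ℝ) + j) / (m + j - 1)⌉₊ : ℕ) : ℝ) := by
    push_cast
    exact sum_le_sum fun j _ => Nat.le_ceil _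
  linarith

end Pool.Agent.MP_96f5a9_co
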